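import Pool.Agent.Helper81.PF.C1

/-!
Project PG (MP_b8862a_ag): the rank of the root system in the Euclidean space is the dimension of the Cartan
subalgebra.
-/

open Module

namespace PG

open PF.CC

variable {ι K M N : Type*} [Field K] [CharZero K] [AddCommGroup M] [Module K M] [AddCommGroup N]
  [Module K N] [Fintype ι] (P : RootPairing ι K M N)

theorem finrank_span_Ph [P.IsRootSystem] [P.IsCrystallographic] [P.IsReduced] :
    finrank ℝ (Submodule.span ℝ (Ph P : Set (EuclideanSpace ℝ ι))) = finrank K M := by
  classical
  obtain ⟨b⟩ : Nonempty P.Base := P.nonempty_base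
  set v : b.support → EuclideanSpace ℝ ι := fun i => vec (rt P i) with hv
  -- the roots are combinations of the simple roots
  have h1 : Submodule.span ℝ (Ph P : Set (EuclideanSpace ℝ ι)) = Submodule.span ℝ (Set.range v) := by
    apply le_antisymm
    · rw [Submodule.span_le]
      intro x hx
      obtain ⟨i, rfl⟩ := (mem_Ph P).1 hx
      obtain ⟨f, hf'⟩ := b.exists_root_eq_sum_int i
      have hf := hf'.2.2
      have h2 : rt P i = ∑ j ∈ b.support, f j • rt P j := by
        funext k
        have h3 : ((rt P i k : ℤ) : K) = ((∑ j ∈ b.support, f j * rt P j k : ℤ) : K) := by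
          rw [cast_rt, RootPairing.pairing, RootPairing.root', hf, map_sum, LinearMap.sum_apply, Int.cast_sum]
          refine Finset.sum_congr rfl fun j _ => ?_
          rw [map_zsmul, LinearMap.smul_apply, Int.cast_mul, cast_rt, zsmul_eq_mul]
          rfl
        have h4 : rt P i k = ∑ j ∈ b.support, f j * rt P j k := by exact_mod_cast h3
        rw [h4, Finset.sum_apply]
        rfl
      have h5 : vec (rt P i) = ∑ j ∈ b.support, (f j : ℝ) • vec (rt P j) := by
        ext k
        rw [vec_apply, h2, Finset.sum_apply]
        simp [vec]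
      rw [SetLike.mem_coe, h5]
      refine Submodule.sum_mem _ fun j hj => Submodule.smul_mem _ _ ?_
      exact Submodule.subset_span ⟨⟨j, hj⟩, rfl⟩
    · rw [Submodule.span_le]
      rintro _ ⟨i, rfl⟩
      exact Submodule.subset_span ((mem_Ph P).2 ⟨i, rfl⟩)
  have h2 : LinearIndependent ℝ v := by
    rw [Fintype.linearIndependent_iff]
    intro g hg
    have hdet : (b.cartanMatrix.map (Int.cast : ℤ → ℝ)).det ≠ 0 := by
      have h3 : b.cartanMatrix.det ≠ 0 :=
        (Matrix.nondegenerate_iff_det_ne_zero).1 b.cartanMatrix_nondegenerate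
      have h4 := (Int.castRingHom ℝ).map_det b.cartanMatrix
      have h5 : (b.cartanMatrix.map (Int.cast : ℤ → ℝ)).det = ((b.cartanMatrix.det : ℤ) : ℝ) := h4.symm
      rw [h5]
      exact_mod_cast h3
    have h6 : Matrix.vecMul g (b.cartanMatrix.map (Int.cast : ℤ → ℝ)) = 0 := by
      funext j
      have h7 := congrArg (fun x : EuclideanSpace ℝ ι => x j) hg
      simp only [Matrix.vecMul, dotProduct, Matrix.map_apply, Pi.zero_apply]
      have h9 : ∀ i : b.support, b.cartanMatrix i j = rt P i j := fun i => rfl
      simp only [h9]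
      simpa [hv, vec] using h7
    have h8 := Matrix.eq_zero_of_vecMul_eq_zero hdet h6
    exact fun i => congrFun h8 i
  rw [h1, finrank_span_eq_card h2, finrank_eq_card_basis b.toWeightBasis]

open LieAlgebra LieAlgebra.IsKilling in
/-- RANK -/
theorem finrank_H {L : Type*} [IsAlgClosed K] [LieRing L] [LieAlgebra K L] [FiniteDimensional K L] [IsKilling K L]
    (H : LieSubalgebra K L) [H.IsCartanSubalgebra] :
    finrank K H = finrank ℝ (Submodule.span ℝ (Ph (rootSystem H) : Set (EuclideanSpace ℝ H.root))) := by
  rw [finrank_span_Ph, Subspace.dual_finrank_eq]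

end PG
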