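import Pool.Agent.Helper3.PG.Dom

/-!
Project PG (MP_b8862a_ag): every coweight is dominant for some base.
-/

open Module AddMonoidAlgebra Set Submodule IsAddIndecomposable

namespace PF.W

variable {ι K M N : Type*} [Field K] [CharZero K] [AddCommGroup M] [Module K M] [AddCommGroup N] [Module K N]
  [Fintype ι]

/-- There is a base for which `D` is dominant. -/
theorem exists_base_dom (P : RootPairing ι K M N) [P.IsRootSystem] [P.IsCrystallographic] [P.IsReduced] (D : N)
    (hD : ∀ i, ∃ k : ℤ, P.toLinearMap (P.root i) D = (k : K)) : ∃ b : P.Base, Dom b D := by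
  classical
  -- a linear retraction of the inclusion of `ℚ`
  obtain ⟨g, hg⟩ := LinearMap.exists_leftInverse_of_injective (Algebra.linearMap ℚ K)
    (LinearMap.ker_eq_bot.2 (algebraMap ℚ K).injective)
  have hgk : ∀ k : ℤ, g (k : K) = k := by
    intro k
    have h1 := LinearMap.congr_fun hg (k : ℚ)
    simpa using h1
  -- a generic functional
  obtain ⟨f₀, hf₀⟩ : ∃ f₀ : M →+ ℚ, ∀ i, f₀ (P.root i) ≠ 0 := by
    let _i : Module ℚ M := Module.compHom M (algebraMap ℚ K)
    obtain ⟨f, hf⟩ : ∃ f : Dual ℚ M, ∀ i, f (P.root i) ≠ 0 :=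
      exists_dual_forall_apply_ne_zero P.root <| by simp [P.ne_zero]
    exact ⟨f.toAddMonoidHom, hf⟩
  obtain ⟨C, hC⟩ : ∃ C : ℚ, ∀ i, |f₀ (P.root i)| < C := by
    refine ⟨∑ i, |f₀ (P.root i)| + 1, fun i => ?_⟩
    have := Finset.single_le_sum (f := fun i => |f₀ (P.root i)|) (fun i _ => abs_nonneg _) (Finset.mem_univ i)
    linarith
  set f : M →+ ℚ := (AddMonoidHom.mulLeft C).comp
    (g.toAddMonoidHom.comp (P.toLinearMap.flip D).toAddMonoidHom) + f₀ with hfdef
  have hfi : ∀ i (k : ℤ), P.toLinearMap (P.root i) D = (k : K) → f (P.root i) = C * k + f₀ (P.root i) := by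
    intro i k hk
    have : f (P.root i) = C * g (P.toLinearMap (P.root i) D) + f₀ (P.root i) := rfl
    rw [this, hk, hgk]
  have hf : ∀ i, f (P.root i) ≠ 0 := by
    intro i
    obtain ⟨k, hk⟩ := hD i
    rw [hfi i k hk]
    have h1 := hC i
    have hC0 : 0 < C := lt_of_le_of_lt (abs_nonneg _) h1
    rcases lt_trichotomy k 0 with h2 | h2 | h2
    · have h3 : (k : ℚ) ≤ -1 := by exact_mod_cast (by omega : k ≤ -1)
      have h4 := (abs_lt.1 h1).2
      nlinarith
    · rw [h2]
      simpa using hf₀ i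
    · have h3 : (1 : ℚ) ≤ k := by exact_mod_cast (by omega : 1 ≤ k)
      have h4 := (abs_lt.1 h1).1
      nlinarith
  let _i := P.indexNeg
  refine ⟨RootPairing.Base.mk' P (baseOf P.root f) (P.linearIndepOn_root_baseOf f hf)
    (fun i => mem_or_neg_mem_closure_baseOf P.root f i (hf i) (by simp)), ?_⟩
  intro i hi
  have hi' : i ∈ baseOf P.root f := by simpa [RootPairing.Base.mk'] using hi
  have hpos : 0 < f (P.root i) := by
    obtain ⟨h1, -⟩ := hi'
    aesop
  obtain ⟨k, hk⟩ := hD i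
  rw [hfi i k hk] at hpos
  have h1 := hC i
  have hk0 : 0 ≤ k := by
    by_contra h2
    have h3 : (k : ℚ) ≤ -1 := by exact_mod_cast (by omega : k ≤ -1)
    have h4 := (abs_lt.1 h1).2
    have hC0 : 0 < C := lt_of_le_of_lt (abs_nonneg _) h1
    nlinarith
  obtain ⟨m, rfl⟩ := Int.eq_ofNat_of_zero_le hk0
  exact ⟨m, by rw [hk]; push_cast; rfl⟩

end PF.W
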