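import Pool.Agent.Helper21.PG.ExDom

/-!
Project PG (MP_b8862a_ag), block P6: an irreducible module whose weights of level one are the roots of level one has
the dimension of the Lie algebra.
-/

open Module LieModule LieAlgebra LieAlgebra.IsKilling AddMonoidAlgebra MTP.MF PF.W

set_option linter.unusedSectionVars false

namespace PG.L

section gen

variable {ι K M N : Type*} [Field K] [CharZero K] [AddCommGroup M] [Module K M] [AddCommGroup N] [Module K N]
  [Fintype ι] {P : RootPairing ι K M N}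

theorem below_level {b : P.Base} {D : N} (hD : Dom b D) {x y : M} (h : Below b x y) :
    ∃ k : ℕ, P.toLinearMap x D = P.toLinearMap y D + (k : K) := by
  classical
  obtain ⟨κ, rfl⟩ := h
  choose! k hk using hD
  refine ⟨∑ i ∈ b.support, κ i * k i, ?_⟩
  rw [map_sub, LinearMap.sub_apply, map_sum, LinearMap.sum_apply, Nat.cast_sum]
  have h1 : ∑ i ∈ b.support, (P.toLinearMap ((κ i : K) • P.root i)) D = ∑ i ∈ b.support, ((κ i * k i : ℕ) : K) := by
    refine Finset.sum_congr rfl fun i hi => ?_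
    rw [map_smul, LinearMap.smul_apply, hk i hi, smul_eq_mul]
    push_cast
    rfl
  rw [h1]
  ring

theorem below_antisymm {b : P.Base} {x y : M} (h1 : Below b x y) (h2 : Below b y x) : x = y := by
  classical
  obtain ⟨κ, hκ⟩ := h1
  obtain ⟨μ, hμ⟩ := h2
  have h3 : ∑ i ∈ b.support, ((κ i + μ i : ℕ) : K) • P.root i = 0 := by
    have h4 : ∑ i ∈ b.support, ((κ i + μ i : ℕ) : K) • P.root i =
        ∑ i ∈ b.support, (κ i : K) • P.root i + ∑ i ∈ b.support, (μ i : K) • P.root i := by
      rw [← Finset.sum_add_distrib]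
      refine Finset.sum_congr rfl fun i _ => ?_
      rw [← add_smul]
      push_cast
      rfl
    rw [h4]
    have h5 : ∑ i ∈ b.support, (κ i : K) • P.root i = x - y := by rw [hκ]; abel
    have h6 : ∑ i ∈ b.support, (μ i : K) • P.root i = y - x := by rw [hμ]; abel
    rw [h5, h6]
    abel
  have hli := b.linearIndepOn_root
  have h7 := linearIndepOn_finset_iff.1 hli (fun i => ((κ i + μ i : ℕ) : K)) h3
  have h8 : ∀ i ∈ b.support, κ i = 0 := by
    intro i hi
    have h9 : κ i + μ i = 0 := by exact_mod_cast h7 i hi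
    omega
  rw [hκ, Finset.sum_eq_zero, sub_zero]
  intro i hi
  rw [h8 i hi, Nat.cast_zero, zero_smul]

end gen

variable {K : Type*} [Field K] [CharZero K] [IsAlgClosed K]
  {L : Type*} [LieRing L] [LieAlgebra K L] [FiniteDimensional K L] [IsKilling K L]
  {H : LieSubalgebra K L} [H.IsCartanSubalgebra]
  {V : Type*} [AddCommGroup V] [Module K V] [FiniteDimensional K V]
  [LieRingModule L V] [LieModule K L V] {I : Type*} [Fintype I]

/-- half the sum of the positive roots is positive on positive coroots -/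
theorem rho_ne_zero (b : (rootSystem H).Base) : ∏ α ∈ pos b, rho b (coroot α.1) ≠ 0 := by
  classical
  rw [Finset.prod_ne_zero_iff]
  intro α hα
  have hpos : b.IsPos α := by simpa [pos] using hα
  obtain ⟨f, hf, hf'⟩ := PF.L.coroot_eq_sum b hpos
  have h1 : rho b (coroot α.1) = ((∑ j ∈ b.support, f j : ℕ) : K) := by
    have h2 : (coroot α.1 : H) = ∑ j ∈ b.support, (f j : K) • (coroot j.1 : H) := hf
    rw [h2, map_sum, Nat.cast_sum]
    refine Finset.sum_congr rfl fun j hj => ?_
    have : rho b (coroot j.1) = 1 := rho_coroot b hj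
    rw [map_smul, this, smul_eq_mul, mul_one]
  rw [h1]
  exact_mod_cast hf'.ne'

/-- the weights of the adjoint module -/
theorem adj_w {J : Type*} [Fintype J] (BL : WB (V := L) H J) (j : J) :
    BL.w j = 0 ∨ ∃ α : H.root, BL.w j = (rootSystem H).root α := by
  have hv0 : BL.v j ≠ 0 := BL.v.ne_zero j
  have hmem : BL.v j ∈ rootSpace H (BL.w j : H → K) := by
    rw [LieAlgebra.rootSpace, LieModule.mem_genWeightSpace]
    intro h
    refine ⟨1, ?_⟩
    rw [pow_one, LinearMap.sub_apply, LieModule.toEnd_apply_apply]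
    have h1 : ⁅h, BL.v j⁆ = BL.w j h • BL.v j := BL.lie_v j h
    rw [h1]
    simp
  have hne : rootSpace H (BL.w j : H → K) ≠ ⊥ := by
    intro h0
    rw [h0, LieSubmodule.mem_bot] at hmem
    exact hv0 hmem
  let χ : Weight K H L := ⟨(BL.w j : H → K), hne⟩
  by_cases h0 : χ.IsZero
  · left
    ext h
    exact congrFun h0 h
  · right
    have hχ : χ ∈ H.root := by simpa [LieSubalgebra.root] using h0
    refine ⟨⟨χ, hχ⟩, ?_⟩
    ext h
    rfl

theorem adj_root {J : Type*} [Fintype J] (BL : WB (V := L) H J) (α : H.root) :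
    ∃ j, BL.w j = (rootSystem H).root α := by
  obtain ⟨x, hx, hx0⟩ := α.1.exists_ne_zero
  have h1 : ∃ j, BL.v.repr x j ≠ 0 := by
    by_contra hcon
    push Not at hcon
    apply hx0
    rw [← BL.v.sum_repr x]
    exact Finset.sum_eq_zero fun j _ => by rw [hcon j, zero_smul]
  obtain ⟨j, hj⟩ := h1
  refine ⟨j, ?_⟩
  ext h
  exact BL.coord (lie_root hx h) hj

/-- the adjoint module of a simple Lie algebra is irreducible -/
theorem simple_irr [LieAlgebra.IsSimple K L] :
    ∀ W : Submodule K L, (∀ x : L, ∀ u ∈ W, ⁅x, u⁆ ∈ W) → W = ⊥ ∨ W = ⊤ := by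
  intro W hW
  let J : LieIdeal K L := { W with lie_mem := fun {x m} hm => hW x m hm }
  rcases eq_bot_or_eq_top J with h | h
  · left
    have h1 : LieSubmodule.toSubmodule J = ⊥ := by rw [h]; rfl
    exact h1
  · right
    have h1 : LieSubmodule.toSubmodule J = ⊤ := by rw [h]; rfl
    exact h1

/-- **P6**: the dimension of the module is the dimension of the Lie algebra. -/
theorem card_eq (hsimp : ∀ W : Submodule K L, (∀ x : L, ∀ u ∈ W, ⁅x, u⁆ ∈ W) → W = ⊥ ∨ W = ⊤)
    (B : WB (V := V) H I)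
    (hirr : ∀ W : Submodule K V, (∀ x : L, ∀ u ∈ W, ⁅x, u⁆ ∈ W) → W = ⊥ ∨ W = ⊤)
    (hfaith : ∀ x : L, (∀ u : V, ⁅x, u⁆ = 0) → x = 0) (D : H)
    (hlev : ∀ α : H.root, α.1 D = 0 ∨ α.1 D = 1 ∨ α.1 D = -1)
    (hw : ∀ i, B.w i D = 0 ∨ B.w i D = 1 ∨ B.w i D = -1) (hex : ∃ i, B.w i D = 1)
    (hY : ∀ μ : Dual K H, μ D = 1 → ((∃ i, B.w i = μ) ↔ ∃ α : H.root, (rootSystem H).root α = μ)) :
    Fintype.card I = finrank K L := by
  classical
  obtain ⟨i₁, hi₁⟩ := hex
  have : Nonempty I := ⟨i₁⟩
  obtain ⟨b, hD⟩ := exists_base_dom (rootSystem H) D (by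
    intro α
    have h0 : (rootSystem H).toLinearMap ((rootSystem H).root α) D = α.1 D := rfl
    rw [h0]
    rcases hlev α with h1 | h1 | h1
    · exact ⟨0, by rw [h1]; norm_num⟩
    · exact ⟨1, by rw [h1]; norm_num⟩
    · exact ⟨-1, by rw [h1]; norm_num⟩)
  have hone : ∀ (c : K) (k : ℕ), (c = 0 ∨ c = 1 ∨ c = -1) → c = 1 + (k : K) → c = 1 := by
    intro c k hc hk
    rcases hc with h1 | h1 | h1
    · exfalso
      rw [h1] at hk
      have h2 : ((1 + k : ℕ) : K) = 0 := by push_cast; exact hk.symm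
      have h3 : 1 + k = 0 := by exact_mod_cast h2
      omega
    · exact h1
    · exfalso
      rw [h1] at hk
      have h2 : ((2 + k : ℕ) : K) = 0 := by push_cast; linear_combination -hk
      have h3 : 2 + k = 0 := by exact_mod_cast h2
      omega
  -- the adjoint module
  obtain ⟨n, ⟨BL⟩⟩ := exists_WB (H := H) hsimp
  have hdim : finrank K L = n := by rw [finrank_eq_card_basis BL.v, Fintype.card_fin]
  obtain ⟨t, ht1, -, ht3⟩ := PF.L.dimension B hirr hfaith b
  have htD : B.w t D = 1 := by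
    obtain ⟨k, hk⟩ := below_level hD (ht1 i₁)
    have h1 : B.w t D = B.w i₁ D + (k : K) := hk
    rw [hi₁] at h1
    exact hone _ k (hw t) h1
  obtain ⟨α₁, hα₁⟩ := (hY _ htD).1 ⟨t, rfl⟩
  obtain ⟨j₁, hj₁⟩ := adj_root BL α₁
  have : Nonempty (Fin n) := ⟨j₁⟩
  have hcen : ∀ x : L, (∀ u : L, ⁅x, u⁆ = 0) → x = 0 := by
    intro x hx
    have h1 : x ∈ LieAlgebra.center K L := by
      rw [LieModule.mem_maxTrivSubmodule]
      intro y
      rw [← lie_skew, hx y, neg_zero]
    rw [LieAlgebra.center_eq_bot] at h1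
    simpa using h1
  obtain ⟨t', ht1', -, ht3'⟩ := PF.L.dimension BL hsimp hcen b
  have hw' : BL.w t' D = 0 ∨ BL.w t' D = 1 ∨ BL.w t' D = -1 := by
    rcases adj_w BL t' with h1 | ⟨α, h1⟩
    · left
      rw [h1]
      rfl
    · rw [h1]
      exact hlev α
  have htD' : BL.w t' D = 1 := by
    obtain ⟨k, hk⟩ := below_level hD (ht1' j₁)
    have h1 : BL.w t' D = BL.w j₁ D + (k : K) := hk
    rw [hj₁, hα₁, htD] at h1
    exact hone _ k hw' h1
  -- the two top weights agree
  have htop : B.w t = BL.w t' := by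
    apply below_antisymm (b := b)
    · -- the top weight of the adjoint module is a weight of `V`
      rcases adj_w BL t' with h1 | ⟨α, h1⟩
      · exfalso
        rw [h1] at htD'
        have : (0 : K) = 1 := htD'
        exact zero_ne_one this
      · obtain ⟨i, hi⟩ := (hY _ htD').2 ⟨α, h1.symm⟩
        rw [← hi]
        exact ht1 i
    · rw [← hα₁, ← hj₁]
      exact ht1' j₁
  have h5 : (Fintype.card I : K) = (Fintype.card (Fin n) : K) := by
    rw [htop, ← ht3'] at ht3
    exact mul_right_cancel₀ (rho_ne_zero b) ht3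
  rw [Fintype.card_fin] at h5
  rw [hdim]
  exact_mod_cast h5

end PG.L
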